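import Mathlib
import Pool.Agent.W757.BL.Defs

/-!
Project BL, part ND: the second variation is nondegenerate.
-/

set_option autoImplicit false

open Set Filter Topology
open scoped ContDiff
open Pool.Agent.W757.BL

namespace Pool.Agent.W696.BL

/-- the length of a moving chord is analytic -/
theorem edge_analytic {x y x' y' : ℝ → ℝ} {L : ℝ} (hF : CF x y x' y' L)
    (hx : AnalyticOnNhd ℝ x univ) (hy : AnalyticOnNhd ℝ y univ) {a b : ℝ} (hab : a < b)
    (hba : b < a + L) (α β : ℝ) :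
    AnalyticAt ℝ (fun τ : ℝ => hh x y (a + τ * α) (b + τ * β)) 0 := by
  have hx' : ContDiff ℝ ω x := hx.contDiff
  have hy' : ContDiff ℝ ω y := hy.contDiff
  have h1 : ContDiff ℝ ω (fun τ : ℝ => (x (b + τ * β) - x (a + τ * α)) ^ 2 +
      (y (b + τ * β) - y (a + τ * α)) ^ 2) := by
    have e1 : ContDiff ℝ ω (fun τ : ℝ => b + τ * β) := by fun_prop
    have e2 : ContDiff ℝ ω (fun τ : ℝ => a + τ * α) := by fun_prop
    exact (((hx'.comp e1).sub (hx'.comp e2)).pow 2).add (((hy'.comp e1).sub (hy'.comp e2)).pow 2)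
  have hpos := hF.pos a b hab hba
  have h2 : (x (b + 0 * β) - x (a + 0 * α)) ^ 2 + (y (b + 0 * β) - y (a + 0 * α)) ^ 2 ≠ 0 := by
    intro h0
    rw [zero_mul, zero_mul, add_zero, add_zero] at h0
    unfold hh at hpos
    rw [h0, Real.sqrt_zero] at hpos
    exact lt_irrefl _ hpos
  have h3 : ContDiffAt ℝ ω (fun τ : ℝ => √((x (b + τ * β) - x (a + τ * α)) ^ 2 +
      (y (b + τ * β) - y (a + τ * α)) ^ 2)) 0 := h1.contDiffAt.sqrt h2
  exact h3.analyticAt

/-- second derivative of a finite sum of analytic functions -/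
theorem deriv2_sum (s : Finset ℕ) (f : ℕ → ℝ → ℝ) (hf : ∀ i ∈ s, AnalyticAt ℝ (f i) 0) :
    deriv (deriv (fun τ => ∑ i ∈ s, f i τ)) 0 = ∑ i ∈ s, deriv (deriv (f i)) 0 := by
  have h1 : ∀ᶠ τ in 𝓝 (0 : ℝ), ∀ i ∈ s, AnalyticAt ℝ (f i) τ :=
    (Finset.eventually_all s).2 fun i hi => (hf i hi).eventually_analyticAt
  have h2 : deriv (fun τ => ∑ i ∈ s, f i τ) =ᶠ[𝓝 0] fun τ => ∑ i ∈ s, deriv (f i) τ := by
    filter_upwards [h1] with τ hτ
    exact deriv_fun_sum fun i hi => (hτ i hi).differentiableAt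
  rw [h2.deriv_eq]
  exact deriv_fun_sum fun i hi => (hf i hi).deriv.differentiableAt

/-- second derivative test -/
theorem deriv2_nonpos {f : ℝ → ℝ} (hf : AnalyticAt ℝ f 0) (h : ∀ᶠ τ in 𝓝 (0 : ℝ), f τ ≤ f 0) :
    deriv (deriv f) 0 ≤ 0 := by
  by_contra hcon
  push Not at hcon
  have hmax : IsLocalMax f 0 := h
  have hd : deriv f 0 = 0 := hmax.deriv_eq_zero
  have hmin : IsLocalMin f 0 := isLocalMin_of_deriv_deriv_pos hcon hd hf.continuousAt
  have hc : f =ᶠ[𝓝 0] fun _ => f 0 := by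
    filter_upwards [hmax, hmin] with τ h1 h2
    exact le_antisymm h1 h2
  have h3 : deriv f =ᶠ[𝓝 0] deriv (fun _ : ℝ => f 0) := hc.deriv
  have h4 : deriv (deriv f) 0 = 0 := by
    rw [h3.deriv_eq]
    simp
  linarith

theorem t_ND (hPF : S_PF) (hED : S_ED) : S_ND := by
  intro x y x' y' L N hC hF hx hy hN m hm a u hu hum w hw
  have hL := hC.L0
  -- the vertices
  set c : ℕ → ℝ := fun i => a + cs L u i with hc
  have hc0 : c 0 = a := by simp [hc, cs]
  have hcN : c (N + 1) = a + L := by simp [hc, cs]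
  have hcu : ∀ j : Fin N, c ((j : ℕ) + 1) = a + u j := by
    intro j
    have : cs L u ((j : ℕ) + 1) = u j := by
      show (if h : (j : ℕ) < N then u ⟨j, h⟩ else L) = u j
      rw [dif_pos j.2]
    rw [hc]; simp only [this]
  have hlt : ∀ i, i ≤ N → c i < c (i + 1) := by
    intro i hi
    have := hu i hi
    rw [hc]; simp only; linarith
  have hle : ∀ i j, i ≤ j → j ≤ N + 1 → c i ≤ c j := by
    intro i j hij
    induction j, hij using Nat.le_induction with
    | base => intro _; exact le_refl _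
    | succ k hk ih =>
      intro hk1
      exact (ih (by omega)).trans (hlt k (by omega)).le
  have hlt2 : ∀ i, i ≤ N → c (i + 1) < c i + L := by
    intro i hi
    rcases Nat.eq_zero_or_pos i with rfl | hi0
    · have h1 : c (0 + 1) < c (0 + 1 + 1) := hlt (0 + 1) (by omega)
      have h2 : c (0 + 1 + 1) ≤ c (N + 1) := hle _ _ (by omega) le_rfl
      rw [hc0]; linarith
    · have h1 : c 0 < c 1 := hlt 0 (by omega)
      have h2 : c 1 ≤ c i := hle _ _ hi0 (by omega)
      have h3 : c (i + 1) ≤ c (N + 1) := hle _ _ (by omega) le_rfl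
      linarith
  -- coefficients of the second variation
  have hex : ∀ i : ℕ, ∃ A B C : ℝ, i < N + 1 → 0 < B ∧ ∀ α β : ℝ,
      deriv (deriv (fun τ : ℝ => hh x y (c i + τ * α) (c (i + 1) + τ * β))) 0 =
        A * α ^ 2 + 2 * B * α * β + C * β ^ 2 := by
    intro i
    by_cases hi : i < N + 1
    · obtain ⟨A, B, C, hB, h⟩ := hED x y x' y' L hC hF hx hy (c i) (c (i + 1))
        (hlt i (by omega)) (hlt2 i (by omega))
      exact ⟨A, B, C, fun _ => ⟨hB, h⟩⟩
    · exact ⟨0, 0, 0, fun h => absurd h hi⟩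
  choose A B C hABC using hex
  -- the perimeter of a moving polygon
  let Φ : (ℕ → ℝ) → ℝ → ℝ := fun W τ =>
    ∑ i ∈ Finset.range (N + 1), hh x y (c i + τ * W i) (c (i + 1) + τ * W (i + 1))
  have hana : ∀ W : ℕ → ℝ, ∀ i ∈ Finset.range (N + 1),
      AnalyticAt ℝ (fun τ : ℝ => hh x y (c i + τ * W i) (c (i + 1) + τ * W (i + 1))) 0 := by
    intro W i hi
    have hi' := Finset.mem_range.1 hi
    exact edge_analytic hF hx hy (hlt i (by omega)) (hlt2 i (by omega)) _ _
  have hΦ2 : ∀ W : ℕ → ℝ, deriv (deriv (Φ W)) 0 = ∑ i ∈ Finset.range (N + 1),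
      (A i * W i ^ 2 + 2 * B i * W i * W (i + 1) + C i * W (i + 1) ^ 2) := by
    intro W
    rw [deriv2_sum (Finset.range (N + 1))
      (fun i τ => hh x y (c i + τ * W i) (c (i + 1) + τ * W (i + 1))) (hana W)]
    exact Finset.sum_congr rfl fun i hi => (hABC i (Finset.mem_range.1 hi)).2 _ _
  have hΦa : ∀ W : ℕ → ℝ, AnalyticAt ℝ (Φ W) 0 := by
    intro W
    exact Finset.analyticAt_fun_sum _ (hana W)
  -- relation with `PP`
  have hcs : ∀ W : ℕ → ℝ, W (N + 1) = W 0 → ∀ τ : ℝ, ∀ i, i ≤ N + 1 →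
      (a + τ * W 0) + cs L (fun j : Fin N => u j + τ * (W ((j : ℕ) + 1) - W 0)) i =
        c i + τ * W i := by
    intro W hW τ i hi
    rcases i with _ | i
    · rw [hc0]; simp [cs]
    · by_cases h : i < N
      · have h1 : cs L (fun j : Fin N => u j + τ * (W ((j : ℕ) + 1) - W 0)) (i + 1) =
            u ⟨i, h⟩ + τ * (W (i + 1) - W 0) := by
          show (if h : i < N then _ else L) = _
          rw [dif_pos h]
        rw [h1, hcu ⟨i, h⟩]
        ring
      · have hiN : i = N := by omega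
        subst hiN
        have h1 : cs L (fun j : Fin i => u j + τ * (W ((j : ℕ) + 1) - W 0)) (i + 1) = L := by
          show (if h : i < i then _ else L) = _
          rw [dif_neg (lt_irrefl i)]
        rw [h1, hcN, hW]
        ring
  have hPP : ∀ W : ℕ → ℝ, W (N + 1) = W 0 → ∀ τ : ℝ,
      PP x y L (a + τ * W 0) (fun j : Fin N => u j + τ * (W ((j : ℕ) + 1) - W 0)) = Φ W τ := by
    intro W hW τ
    refine Finset.sum_congr rfl fun i hi => ?_
    have hi' := Finset.mem_range.1 hi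
    rw [hcs W hW τ i (by omega), hcs W hW τ (i + 1) (by omega)]
  have hKK : ∀ W : ℕ → ℝ, W (N + 1) = W 0 → ∀ᶠ τ in 𝓝 (0 : ℝ),
      (fun j : Fin N => u j + τ * (W ((j : ℕ) + 1) - W 0)) ∈ KK L N := by
    intro W hW
    have h1 : ∀ᶠ τ in 𝓝 (0 : ℝ), ∀ i ∈ Finset.range (N + 1),
        c i + τ * W i < c (i + 1) + τ * W (i + 1) := by
      refine (Finset.eventually_all _).2 fun i hi => ?_
      have hi' := Finset.mem_range.1 hi
      have e1 : Tendsto (fun τ : ℝ => c i + τ * W i) (𝓝 0) (𝓝 (c i + 0 * W i)) :=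
        (Continuous.tendsto (by fun_prop) 0)
      have e2 : Tendsto (fun τ : ℝ => c (i + 1) + τ * W (i + 1)) (𝓝 0)
          (𝓝 (c (i + 1) + 0 * W (i + 1))) := (Continuous.tendsto (by fun_prop) 0)
      refine e1.eventually_lt e2 ?_
      have := hlt i (by omega)
      simpa using this
    filter_upwards [h1] with τ hτ
    intro i hi
    have h2 := hτ i (Finset.mem_range.2 (by omega))
    have h3 := hcs W hW τ i (by omega)
    have h4 := hcs W hW τ (i + 1) (by omega)
    linarith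
  have hΦ0 : ∀ W : ℕ → ℝ, Φ W 0 = m := by
    intro W
    rw [← hum]
    show ∑ i ∈ Finset.range (N + 1), hh x y (c i + 0 * W i) (c (i + 1) + 0 * W (i + 1)) = _
    refine Finset.sum_congr rfl fun i _ => ?_
    rw [zero_mul, zero_mul, add_zero, add_zero]
  have hQ : ∀ W : ℕ → ℝ, (∀ i, W (i + (N + 1)) = W i) → ∑ i ∈ Finset.range (N + 1),
      (A i * W i ^ 2 + 2 * B i * W i * W (i + 1) + C i * W (i + 1) ^ 2) ≤ 0 := by
    intro W hW
    have hW0 : W (N + 1) = W 0 := by have := hW 0; rwa [zero_add] at this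
    rw [← hΦ2]
    refine deriv2_nonpos (hΦa W) ?_
    filter_upwards [hKK W hW0] with τ hτ
    rw [hΦ0, ← hPP W hW0]
    exact hm _ _ hτ
  -- the given variation
  let W : ℕ → ℝ := fun i => if h : 0 < i % (N + 1) then
    w ⟨i % (N + 1) - 1, by have : i % (N + 1) < N + 1 := Nat.mod_lt i (Nat.succ_pos N); omega⟩ else 0
  have hWper : ∀ i, W (i + (N + 1)) = W i := by
    intro i
    have : (i + (N + 1)) % (N + 1) = i % (N + 1) := Nat.add_mod_right _ _
    simp only [W, this]
  have hW0 : W 0 = 0 := by simp [W]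
  have hWN : W (N + 1) = W 0 := by have := hWper 0; rwa [zero_add] at this
  have hWj : ∀ j : Fin N, W ((j : ℕ) + 1) = w j := by
    intro j
    have hj := j.2
    have h1 : ((j : ℕ) + 1) % (N + 1) = (j : ℕ) + 1 := Nat.mod_eq_of_lt (by omega)
    simp only [W, h1, Nat.add_sub_cancel]
    rw [dif_pos (Nat.succ_pos _)]
  have hfun : (fun τ : ℝ => PP x y L a (u + τ • w)) = Φ W := by
    funext τ
    rw [← hPP W hWN τ, hW0, mul_zero, add_zero]
    congr 1
    funext j
    rw [hWj j, sub_zero]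
    simp
  rw [hfun, hΦ2] at hw
  have hres := hPF (N + 1) A B C (by omega) (fun i hi => (hABC i hi).1) hQ W hWper hW0 hw
  funext j
  rw [← hWj j, hres]
  rfl

end Pool.Agent.W696.BL
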