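import Pool.Agent.W269.BL.Stm

set_option autoImplicit false

/-! Project BL, part RED. -/

open Polynomial

namespace Pool.Agent.W696.BL.RED

open Pool.Agent.W269.BL

universe u

lemma lam_pm {K : Type u} [Field K] (F : K[X]) : lam F = 1 ∨ lam F = -1 := by
  unfold lam
  exact neg_one_pow_eq_or ℤ _

lemma lam_mul {K : Type u} [Field K] {F G : K[X]} (hF : F ≠ 0) (hG : G ≠ 0) :
    lam (F * G) = lam F * lam G := by
  unfold lam
  rw [← pow_add, ← Multiset.card_add]
  congr 1
  exact Multiset.card_eq_card_of_rel (UniqueFactorizationMonoid.factors_mul hF hG)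

lemma lam_assoc {K : Type u} [Field K] {F G : K[X]} (h : Associated F G) :
    lam F = lam G := by
  unfold lam
  congr 1
  exact Multiset.card_eq_card_of_rel (UniqueFactorizationMonoid.factors_rel_of_associated h)

lemma lam_C_mul {K : Type u} [Field K] {a : K} (ha : a ≠ 0) (F : K[X]) :
    lam (C a * F) = lam F := by
  refine lam_assoc ?_
  have h1 : IsUnit (C a : K[X]) := isUnit_C.2 (isUnit_iff_ne_zero.2 ha)
  exact (associated_unit_mul_left F (C a) h1)

lemma exists_F {K : Type u} [Field K] (n : ℕ) (A B : Fin n → K[X]) (hA : ∀ j, A j ≠ 0) :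
    ∃ F₁ : K[X], ∀ j, A j * F₁ + B j ≠ 0 := by
  classical
  have h1 : ∀ j, {F : K[X] | A j * F + B j = 0}.Finite := by
    intro j
    refine Set.Subsingleton.finite ?_
    intro x hx y hy
    have h2 : A j * x = A j * y := by
      have h3 : A j * x + B j = A j * y + B j := by
        rw [show A j * x + B j = 0 from hx, show A j * y + B j = 0 from hy]
      exact add_right_cancel h3
    exact mul_left_cancel₀ (hA j) h2
  have h2 : (⋃ j, {F : K[X] | A j * F + B j = 0}).Finite := Set.finite_iUnion h1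
  obtain ⟨F, hF⟩ := h2.infinite_compl.nonempty
  refine ⟨F, fun j h3 => hF ?_⟩
  exact Set.mem_iUnion.2 ⟨j, h3⟩

lemma exists_Q (K : Type u) [Field K] [Fintype K] (n : ℕ) :
    ∃ Q : K[X], Q ≠ 0 ∧ ∀ P : K[X], P ≠ 0 → P.natDegree ≤ n → P ∣ Q := by
  classical
  have h1 : (degreeLT K (n + 1) : Set K[X]).Finite := by
    have h2 : Module.Finite K (degreeLT K (n + 1)) :=
      Module.Finite.equiv (degreeLTEquiv K (n + 1)).symm
    have h3 : Finite (degreeLT K (n + 1)) := Module.finite_of_finite K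
    exact Set.toFinite _
  refine ⟨∏ P ∈ h1.toFinset.filter (fun P => P ≠ 0), P, ?_, ?_⟩
  · rw [Finset.prod_ne_zero_iff]
    intro P hP
    exact (Finset.mem_filter.1 hP).2
  · intro P hP hd
    refine Finset.dvd_prod_of_mem _ ?_
    rw [Finset.mem_filter, Set.Finite.mem_toFinset]
    refine ⟨?_, hP⟩
    rw [SetLike.mem_coe, mem_degreeLT, degree_eq_natDegree hP]
    exact_mod_cast Nat.lt_succ_of_le hd

theorem main : StmRED.{u} := by
  classical
  intro K _ _ n A B hA hAB
  obtain ⟨F₁, hF⟩ := exists_F n A B hA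
  obtain ⟨Q, hQ0, hQ⟩ := exists_Q K n
  set c : Fin n → K[X] := fun j => A j * F₁ + B j with hc
  have hc0 : ∀ j, c j ≠ 0 := hF
  set T0 : K[X] := Q * ∏ j, (c j) ^ 2 with hT0
  have hT00 : T0 ≠ 0 := by
    refine mul_ne_zero hQ0 ?_
    rw [Finset.prod_ne_zero_iff]
    intro j _
    exact pow_ne_zero 2 (hc0 j)
  have hTm : (normalize T0).Monic := monic_normalize hT00
  obtain ⟨v, hv⟩ : ∃ v : K[X], normalize T0 = T0 * v := (dvd_normalize_iff.2 dvd_rfl)
  have hv0 : v ≠ 0 := by
    rintro rfl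
    rw [mul_zero] at hv
    rw [hv] at hTm
    exact not_monic_zero hTm
  refine ⟨F₁, normalize T0, hTm, fun s => ?_⟩
  set H : Fin n → K[X] := fun j =>
    A j * X ^ s * v * Q * c j * ∏ i ∈ Finset.univ.erase j, (c i) ^ 2 with hH
  have hcH : ∀ j, c j * H j = A j * (X ^ s * normalize T0) := by
    intro j
    have h1 : ∏ i, (c i) ^ 2 = (c j) ^ 2 * ∏ i ∈ Finset.univ.erase j, (c i) ^ 2 :=
      (Finset.mul_prod_erase _ _ (Finset.mem_univ j)).symm
    rw [hv, hT0, h1, hH]
    ring
  have hH0 : ∀ j, H j ≠ 0 := by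
    intro j h1
    have h2 := hcH j
    rw [h1, mul_zero] at h2
    exact mul_ne_zero (hA j) (mul_ne_zero (pow_ne_zero s X_ne_zero) hTm.ne_zero) h2.symm
  have hα : ∀ j, (H j).leadingCoeff ≠ 0 := fun j => leadingCoeff_ne_zero.2 (hH0 j)
  have hHA : ∀ j, C (H j).leadingCoeff * (C ((H j).leadingCoeff)⁻¹ * H j) = H j := by
    intro j
    rw [← mul_assoc, ← C_mul, mul_inv_cancel₀ (hα j), C_1, one_mul]
  refine ⟨fun j => C ((H j).leadingCoeff)⁻¹ * H j, fun j => ((H j).leadingCoeff)⁻¹,
    fun j => lam (c j), ?_, ?_, ?_, ?_, ?_, ?_⟩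
  · intro j
    have h1 := monic_mul_leadingCoeff_inv (hH0 j)
    rwa [mul_comm] at h1
  · intro j
    exact inv_ne_zero (hα j)
  · intro i j hij h1
    have h2 : H i = H j := by
      have h3 : C ((H j).leadingCoeff)⁻¹ * C ((H i).leadingCoeff)⁻¹ ≠ 0 := by
        refine mul_ne_zero ?_ ?_
        · exact C_ne_zero.2 (inv_ne_zero (hα j))
        · exact C_ne_zero.2 (inv_ne_zero (hα i))
      refine mul_left_cancel₀ h3 ?_
      linear_combination h1
    have h3 : (X ^ s * normalize T0) * (c j * A i) = (X ^ s * normalize T0) * (c i * A j) := by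
      have h4 := hcH i
      have h5 := hcH j
      rw [h2] at h4
      linear_combination (-(c j)) * h4 + (c i) * h5
    have h4 := mul_left_cancel₀ (mul_ne_zero (pow_ne_zero s X_ne_zero) hTm.ne_zero) h3
    refine hAB i j hij ?_
    simp only [hc] at h4
    linear_combination h4
  · intro P hP hd j
    have h1 : P.natDegree ≤ n := by
      have h2 : P.natDegree < Fintype.card K ^ P.natDegree :=
        Nat.lt_pow_self Fintype.one_lt_card
      omega
    have h2 := hQ P hP.ne_zero h1
    refine Dvd.dvd.mul_left ?_ _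
    refine h2.trans ?_
    refine ⟨A j * X ^ s * v * c j * ∏ i ∈ Finset.univ.erase j, (c i) ^ 2, ?_⟩
    rw [hH]
    ring
  · intro j
    exact lam_pm _
  · intro G j h1
    have h2 : A j * (F₁ + X ^ s * normalize T0 * G) + B j =
        c j * (C (H j).leadingCoeff *
          (C ((H j).leadingCoeff)⁻¹ * H j * G + C ((H j).leadingCoeff)⁻¹)) := by
      have h3 : C (H j).leadingCoeff *
          (C ((H j).leadingCoeff)⁻¹ * H j * G + C ((H j).leadingCoeff)⁻¹) = H j * G + 1 := by
        have h4 : C (H j).leadingCoeff * C ((H j).leadingCoeff)⁻¹ = (1 : K[X]) := by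
          rw [← C_mul, mul_inv_cancel₀ (hα j), C_1]
        linear_combination (H j * G + 1) * h4
      rw [h3]
      have h5 := hcH j
      have h6 : c j = A j * F₁ + B j := rfl
      linear_combination (-G) * h5 - h6
    have h3 : C (H j).leadingCoeff *
          (C ((H j).leadingCoeff)⁻¹ * H j * G + C ((H j).leadingCoeff)⁻¹) ≠ 0 :=
      mul_ne_zero (C_ne_zero.2 (hα j)) h1
    rw [h2]
    refine ⟨mul_ne_zero (hc0 j) h3, ?_⟩
    rw [lam_mul (hc0 j) h3, lam_C_mul (hα j)]

end Pool.Agent.W696.BL.RED
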